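import Pool.Agent.W798.SP.Basic

/-!
# Sum-product: existence of the extensions
-/

set_option autoImplicit false
set_option linter.unusedSectionVars false

open Finset
open scoped Classical Pointwise

namespace Pool.Agent.W135.SPX.EX

open Pool.Agent.W904.AK Pool.Agent.W798.SP

/-- Entropy is at most the logarithm of the number of values. -/
lemma H_le_card {Ω : Type} [Fintype Ω] {α : Type} {p : Ω → ℝ} (hp : IsLaw p) (f : Ω → α)
    (F : Finset α) (hF : ∀ ω, p ω ≠ 0 → f ω ∈ F) : H p f ≤ Real.log F.card := by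
  obtain ⟨ω₀, hω₀⟩ : ∃ ω, p ω ≠ 0 := by
    by_contra h
    push Not at h
    have := hp.total
    simp [h] at this
  have hn : (0 : ℝ) < F.card := by
    exact_mod_cast Finset.card_pos.2 ⟨_, hF ω₀ hω₀⟩
  have h1 : ∑ ω, p ω * (1 / im p f (f ω)) ≤ F.card := by
    have e : ∀ ω, p ω * (1 / im p f (f ω)) =
        ∑ a ∈ F, (if f ω = a then p ω else 0) * (1 / im p f a) := by
      intro ω
      by_cases h : p ω = 0
      · simp [h]
      · rw [Finset.sum_eq_single (f ω)]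
        · simp
        · intro b _ hb
          rw [if_neg (Ne.symm hb), zero_mul]
        · intro h'
          exact absurd (hF ω h) h'
    rw [Finset.sum_congr rfl fun ω _ => e ω, Finset.sum_comm]
    have : ∀ a ∈ F, ∑ ω, (if f ω = a then p ω else 0) * (1 / im p f a) ≤ 1 := by
      intro a _
      rw [← Finset.sum_mul, ← im_eq_sum]
      by_cases h : im p f a = 0
      · rw [h]; norm_num
      · rw [mul_one_div, div_self h]
    calc _ ≤ ∑ _a ∈ F, (1 : ℝ) := Finset.sum_le_sum this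
      _ = F.card := by simp
  have h2 : ∀ ω, p ω * -Real.log (im p f (f ω)) ≤
      p ω * Real.log F.card + (p ω * (1 / im p f (f ω)) / F.card - p ω) := by
    intro ω
    by_cases h : p ω = 0
    · simp [h]
    have hi := im_pos hp f h
    have h3 := Real.log_le_sub_one_of_pos (x := 1 / (im p f (f ω) * F.card)) (by positivity)
    rw [Real.log_div one_ne_zero (mul_pos hi hn).ne', Real.log_one,
      Real.log_mul hi.ne' hn.ne'] at h3
    have h4 : p ω * (1 / im p f (f ω)) / F.card = p ω * (1 / (im p f (f ω) * F.card)) := by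
      field_simp
    rw [h4]
    have := mul_le_mul_of_nonneg_left h3 (hp.nonneg ω)
    linarith
  have h3 := Finset.sum_le_sum fun ω (_ : ω ∈ Finset.univ) => h2 ω
  rw [Finset.sum_add_distrib, Finset.sum_sub_distrib, ← Finset.sum_mul, hp.total,
    ← Finset.sum_div] at h3
  have h4 : (∑ ω, p ω * (1 / im p f (f ω))) / F.card ≤ 1 := by
    rw [div_le_one hn]; exact h1
  have h5 : H p f = ∑ ω, p ω * -Real.log (im p f (f ω)) := rfl
  rw [h5]
  linarith

/-- Entropy of the uniform law. -/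
lemma H_unif (A : Finset ℝ) (hA : A.Nonempty) :
    H (unif ↥A) (fun a => a) = Real.log A.card := by
  have : Nonempty ↥A := ⟨⟨hA.choose, hA.choose_spec⟩⟩
  have e : ∀ a : ↥A, im (unif ↥A) (fun a => a) a = 1 / (A.card : ℝ) := by
    intro a
    rw [im_eq_sum]
    refine (Finset.sum_eq_single a (fun b _ hb => if_neg hb)
      (fun h => absurd (Finset.mem_univ a) h)).trans ?_
    rw [if_pos rfl]
    unfold unif
    rw [Fintype.card_coe]
  unfold H
  rw [Finset.sum_congr rfl fun a _ => by rw [e a]]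
  rw [← Finset.sum_mul, (unif_law ↥A).total, one_mul, one_div, Real.log_inv, neg_neg]

section Cons

variable {Ω γ : Type} [Fintype Ω] (A : Finset ℝ) (p : Ω → ℝ) (Lam : Ω → γ)

/-- The law with a conditionally independent copy and a uniform element of `A`. -/
noncomputable def p1 : (Ω × Ω) × ↥A → ℝ :=
  glue (glue p p Lam Lam) (unif ↥A) (fun _ => ()) (fun _ => ())

variable {A p Lam}

lemma p1_law (hA : A.Nonempty) (hp : IsLaw p) : IsLaw (p1 A p Lam) := by
  have : Nonempty ↥A := ⟨⟨hA.choose, hA.choose_spec⟩⟩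
  exact glue_law (glue_law hp hp fun _ => rfl) (unif_law ↥A)
    (prod_law (glue_law hp hp fun _ => rfl) (unif_law ↥A))

lemma p1_supp {t : (Ω × Ω) × ↥A} (h : p1 A p Lam t ≠ 0) :
    Lam t.1.1 = Lam t.1.2 ∧ p t.1.1 ≠ 0 ∧ p t.1.2 ≠ 0 :=
  glue_supp (glue_supp h).2.1

lemma p1_im_fst (hA : A.Nonempty) (hp : IsLaw p) {α : Type} (f : Ω → α) (a : α) :
    im (p1 A p Lam) (fun t => f t.1.1) a = im p f a := by
  have : Nonempty ↥A := ⟨⟨hA.choose, hA.choose_spec⟩⟩
  have h1 := im_glue_fst (f := fun _ => ()) (g := fun _ => ())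
    (glue_law hp hp fun _ => rfl : IsLaw (glue p p Lam Lam))
    (prod_law (glue_law hp hp fun _ => rfl) (unif_law ↥A)) (fun z => f z.1) a
  have h2 := im_glue_fst (f := Lam) (g := Lam) hp (fun _ => rfl) f a
  exact h1.trans h2

lemma p1_im_snd (hA : A.Nonempty) (hp : IsLaw p) {α : Type} (f : Ω → α) (a : α) :
    im (p1 A p Lam) (fun t => f t.1.2) a = im p f a := by
  have : Nonempty ↥A := ⟨⟨hA.choose, hA.choose_spec⟩⟩
  have h1 := im_glue_fst (f := fun _ => ()) (g := fun _ => ())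
    (glue_law hp hp fun _ => rfl : IsLaw (glue p p Lam Lam))
    (prod_law (glue_law hp hp fun _ => rfl) (unif_law ↥A)) (fun z => f z.2) a
  have h2 := im_glue_snd (f := Lam) (g := Lam) hp (fun _ => rfl) f a
  exact h1.trans h2

lemma p1_H_fst (hA : A.Nonempty) (hp : IsLaw p) {α : Type} (f : Ω → α) :
    H (p1 A p Lam) (fun t => f t.1.1) = H p f := H_eq_of_im_eq (p1_im_fst hA hp f)

/-- Two functions which agree on the support have the same image law. -/
lemma im_congr {Ω' α : Type} [Fintype Ω'] {q : Ω' → ℝ} {f g : Ω' → α}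
    (h : ∀ ω, q ω ≠ 0 → f ω = g ω) (a : α) : im q f a = im q g a := by
  rw [im_eq_sum, im_eq_sum]
  refine Finset.sum_congr rfl fun x _ => ?_
  by_cases hx : q x = 0
  · simp [hx]
  · rw [h x hx]

lemma p1_H_all (hA : A.Nonempty) (hp : IsLaw p) {α : Type} (z : Ω → α) (y : Ω → ℝ) :
    H (p1 A p Lam) (fun t => (Lam t.1.1, (z t.1.1, ((t.2 : ℝ), y t.1.2)))) =
      H p (fun ω => (Lam ω, z ω)) + (Real.log A.card + CH p Lam y) := by
  have : Nonempty ↥A := ⟨⟨hA.choose, hA.choose_spec⟩⟩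
  have hq : IsLaw (glue p p Lam Lam) := glue_law hp hp fun _ => rfl
  have h1 := H_glue (f := Lam) (g := Lam) hp hp (fun _ => rfl)
    (u := fun ω => (Lam ω, z ω)) (v := fun ω => (Lam ω, y ω)) (Det.fst p Lam z) (Det.fst p Lam y)
  have h2 := H_glue (f := fun _ => ()) (g := fun _ => ()) hq (unif_law ↥A)
    (prod_law hq (unif_law ↥A))
    (u := fun w => ((Lam w.1, z w.1), (Lam w.2, y w.2))) (v := fun a => a)
    (Det.of_unit _ _) (Det.of_unit _ _)
  rw [h1, H_unif A hA, H_const hq] at h2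
  have hl := p1_law (Lam := Lam) hA hp
  have h3 : H (p1 A p Lam) (fun t => (Lam t.1.1, (z t.1.1, ((t.2 : ℝ), y t.1.2)))) =
      H (p1 A p Lam) (fun t => (((Lam t.1.1, z t.1.1), (Lam t.1.2, y t.1.2)), t.2)) := by
    refine H_congr hl ?_ ?_
    · intro s t hs ht hst
      simp only [Prod.mk.injEq] at hst ⊢
      obtain ⟨a1, a2, a3, a4⟩ := hst
      refine ⟨⟨⟨a1, a2⟩, ?_, a4⟩, Subtype.ext a3⟩
      rw [← (p1_supp hs).1, ← (p1_supp ht).1, a1]
    · exact Det.mk' (fun w => (w.1.1.1, (w.1.1.2, ((w.2 : ℝ), w.1.2.2)))) fun ω _ => rfl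
  rw [h3]
  unfold CH
  refine Eq.trans h2 ?_
  ring

end Cons

/-- EX. -/
theorem tEX (h1 : S_RB) (h2 : S_TR) : S_EX := by
  intro Ω _ A p l u n i hA hpos hB hi
  have hp := hB.law
  have hT := h2 A p l u n hpos hB
  have hl1 := p1_law (Lam := zz l) hA hp
  -- the law `P` and its variables
  set P : (Ω × Ω) × ↥A → ℝ := p1 A p (zz l) with hP
  set W : (Ω × Ω) × ↥A → ℝ × ℝ :=
    fun t => (u i t.1.1 * (t.2 : ℝ), u 2 t.1.1 * u i t.1.2) with hW
  have hsupp : ∀ t, P t ≠ 0 → zz l t.1.1 = zz l t.1.2 ∧ p t.1.1 ≠ 0 ∧ p t.1.2 ≠ 0 :=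
    fun t ht => p1_supp ht
  have hT1 : Tri P (fun t => zz l t.1.1) (fun k t => u k t.1.1) n := by
    refine ⟨hl1, ?_⟩
    obtain ⟨c, S, hS, hr⟩ := hT.rel
    exact ⟨c, S, hS, fun t ht => hr t.1.1 (hsupp t ht).2.1⟩
  have hfibA : ∀ (a : ℝ) {x : ℝ}, x ∈ fib A a → x ∈ A := fun a x hx =>
    (Finset.mem_filter.1 hx).1
  have hfibA' : ∀ (a : ℝ) {x : ℝ}, x ∈ fib A a → a * x ∈ A := fun a x hx =>
    (Finset.mem_filter.1 hx).2
  have eH1 : ∀ {α : Type} (f : Ω → α), H P (fun t => f t.1.1) = H p f := fun f =>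
    p1_H_fst hA hp f
  have e1 : CH P (fun t => zz l t.1.1) (fun t => (zz u t.1.1, ((t.2 : ℝ), u i t.1.2))) =
      CH p (zz l) (zz u) + (Real.log A.card + CH p (zz l) (u i)) := by
    have a := p1_H_all (Lam := zz l) hA hp (zz u) (u i)
    have b := eH1 (zz l)
    unfold CH at a ⊢
    rw [b]
    linarith
  have e2 : CH P (fun t => zz l t.1.1) (fun t => ((t.2 : ℝ), u i t.1.2)) =
      Real.log A.card + CH p (zz l) (u i) := by
    have a := p1_H_all (Lam := zz l) hA hp (fun _ => ()) (u i)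
    have b := eH1 (zz l)
    have c : H P (fun t => (zz l t.1.1, ((t.2 : ℝ), u i t.1.2))) =
        H P (fun t => (zz l t.1.1, ((), ((t.2 : ℝ), u i t.1.2)))) :=
      H_congr hl1 (Det.mk' (fun w => (w.1, ((), w.2))) fun _ _ => rfl)
        (Det.mk' (fun w => (w.1, w.2.2)) fun _ _ => rfl)
    have d : H p (fun ω => (zz l ω, ())) = H p (zz l) :=
      H_congr hp (Det.fst _ _ _) (Det.pair (Det.refl _ _) (Det.of_unit _ _))
    unfold CH at a ⊢
    rw [c, b]
    linarith
  have e3 : CH P (fun t => zz l t.1.1) (fun t => zz u t.1.1) = CH p (zz l) (zz u) := by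
    have a := eH1 (fun ω => (zz l ω, zz u ω))
    have b := eH1 (zz l)
    unfold CH
    rw [a, b]
  have e4 : CH P (fun t => zz l t.1.1) (fun t => u i t.1.1) = CH p (zz l) (u i) := by
    have a := eH1 (fun ω => (zz l ω, u i ω))
    have b := eH1 (zz l)
    unfold CH
    rw [a, b]
  have hR := h1 A P (fun t => zz l t.1.1) (fun k t => u k t.1.1) n (fun t => (t.2 : ℝ))
    (fun t => u i t.1.2) i 2 hpos hT1 hi
    (fun t ht => ⟨t.2.2, (hpos _ (hfibA _ (hB.mem _ (hsupp t ht).2.2 i))).ne'⟩)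
    (by
      intro a
      have a1 := p1_im_fst (Lam := zz l) hA hp (fun ω => (zz l ω, u i ω)) a
      have a2 := p1_im_snd (Lam := zz l) hA hp (fun ω => (zz l ω, u i ω)) a
      have a3 : im P (fun t => (zz l t.1.1, u i t.1.2)) a =
          im P (fun t => (zz l t.1.2, u i t.1.2)) a :=
        im_congr (fun t ht => by rw [(hsupp t ht).1]) a
      exact a3.trans (a2.trans a1.symm))
    (by
      have e3' : CH P (fun t => zz l t.1.1) (zz (fun k (t : (Ω × Ω) × ↥A) => u k t.1.1)) =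
        CH p (zz l) (zz u) := e3
      rw [e3', e4]
      exact e1)
  have e3' : CH P (fun t => zz l t.1.1) (zz (fun k (t : (Ω × Ω) × ↥A) => u k t.1.1)) =
    CH p (zz l) (zz u) := e3
  rw [e3'] at hR
  -- the second gluing
  have hW1 : ∀ t, P t ≠ 0 → W t ∈ (A * A) ×ˢ (A * A) := by
    intro t ht
    obtain ⟨-, b1, b2⟩ := hsupp t ht
    exact Finset.mem_product.2 ⟨Finset.mul_mem_mul (hfibA _ (hB.mem _ b1 i)) t.2.2,
      Finset.mul_mem_mul (hfibA _ (hB.mem _ b1 2)) (hfibA _ (hB.mem _ b2 i))⟩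
  have hHW : H P W ≤ 2 * Real.log (A * A).card := by
    refine (H_le_card hl1 W _ hW1).trans ?_
    rw [Finset.card_product, Nat.cast_mul, ← pow_two, Real.log_pow]
    norm_num
  have hsub : H P (fun t => (zz l t.1.1, W t)) + H p (l i.castSucc) ≤
      H p (zz l) + H P (fun t => (l i.castSucc t.1.1, W t)) := by
    have a := submod' hl1 (f := fun t => zz l t.1.1) (g := fun t => (l i.castSucc t.1.1, W t))
      (h := fun t => l i.castSucc t.1.1) (k := fun t => (zz l t.1.1, W t))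
      (Det.mk' (fun v => v i.castSucc) fun _ _ => rfl) (Det.fst _ _ _)
      (Det.mk' (fun v => (v.1, v.2.2)) fun _ _ => rfl)
    rw [eH1 (zz l), eH1 (l i.castSucc)] at a
    exact a
  have hlaw2 : IsLaw (glue P P W W) := glue_law hl1 hl1 fun _ => rfl
  refine ⟨((Ω × Ω) × ↥A) × ((Ω × Ω) × ↥A), inferInstance, glue P P W W,
    fun t => zz l t.1.1.1, fun k t => u k t.1.1.1, fun t => (t.1.2 : ℝ),
    fun t => u i t.1.1.2, fun t => l i.castSucc t.2.1.1, hlaw2, ?_, ?_, ?_, ?_⟩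
  · intro a
    have a1 := im_glue_fst (f := W) (g := W) hl1 (fun _ => rfl)
      (fun t : (Ω × Ω) × ↥A => (zz l t.1.1, zz u t.1.1)) a
    have a2 := p1_im_fst (Lam := zz l) hA hp (fun ω => (zz l ω, zz u ω)) a
    exact a1.trans a2
  · intro t ht
    obtain ⟨c1, c2, c3⟩ := glue_supp ht
    obtain ⟨d1, d2, d3⟩ := hsupp _ c2
    obtain ⟨f1, f2, f3⟩ := hsupp _ c3
    have g1 : u i t.1.1.1 * (t.1.2 : ℝ) = u i t.2.1.1 * (t.2.2 : ℝ) := congrArg Prod.fst c1
    have g2 : u 2 t.1.1.1 * u i t.1.1.2 = u 2 t.2.1.1 * u i t.2.1.2 := congrArg Prod.snd c1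
    refine ⟨(hpos _ t.1.2.2).ne', (hpos _ (hfibA _ (hB.mem _ d3 i))).ne',
      (hB.lpos _ f2 _).ne', ?_, ?_⟩
    · have : u i t.1.1.1 * l i.castSucc t.2.1.1 * (t.1.2 : ℝ) =
          (l i.castSucc t.2.1.1 * u i t.2.1.1) * (t.2.2 : ℝ) := by
        linear_combination l i.castSucc t.2.1.1 * g1
      show u i t.1.1.1 * l i.castSucc t.2.1.1 * (t.1.2 : ℝ) ∈ A * A
      rw [this]
      exact Finset.mul_mem_mul (hfibA' _ (hB.mem _ f2 i)) t.2.2.2
    · have : u 2 t.1.1.1 * l i.castSucc t.2.1.1 * u i t.1.1.2 =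
          u 2 t.2.1.1 * (l i.castSucc t.2.1.2 * u i t.2.1.2) := by
        have : l i.castSucc t.2.1.1 = l i.castSucc t.2.1.2 := congrFun f1 i.castSucc
        rw [← this]
        linear_combination l i.castSucc t.2.1.1 * g2
      show u 2 t.1.1.1 * l i.castSucc t.2.1.1 * u i t.1.1.2 ∈ A * A
      rw [this]
      exact Finset.mul_mem_mul (hfibA _ (hB.mem _ f2 2)) (hfibA' _ (hB.mem _ f3 i))
  · have a0 := H_glue_fst (f := W) (g := W) (q := P) hl1 (fun _ => rfl)
      (fun t : (Ω × Ω) × ↥A => zz l t.1.1)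
    have a1 := H_glue_fst (f := W) (g := W) (q := P) hl1 (fun _ => rfl)
      (fun t : (Ω × Ω) × ↥A => (zz l t.1.1, (zz u t.1.1, ((t.2 : ℝ), u i t.1.2))))
    have a2 := H_glue_fst (f := W) (g := W) (q := P) hl1 (fun _ => rfl)
      (fun t : (Ω × Ω) × ↥A => (zz l t.1.1, zz u t.1.1))
    have a3 := H_glue_fst (f := W) (g := W) (q := P) hl1 (fun _ => rfl)
      (fun t : (Ω × Ω) × ↥A => (zz l t.1.1, ((t.2 : ℝ), u i t.1.2)))
    show H (glue P P W W) (fun t => (zz l t.1.1.1, (zz u t.1.1.1, ((t.1.2 : ℝ), u i t.1.1.2)))) -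
        H (glue P P W W) (fun t => zz l t.1.1.1) =
      (H (glue P P W W) (fun t => (zz l t.1.1.1, zz u t.1.1.1)) -
        H (glue P P W W) (fun t => zz l t.1.1.1)) +
      (H (glue P P W W) (fun t => (zz l t.1.1.1, ((t.1.2 : ℝ), u i t.1.1.2))) -
        H (glue P P W W) (fun t => zz l t.1.1.1))
    rw [a0, a1, a2, a3]
    unfold CH at e1 e2 e3
    rw [eH1 (zz l)] at e1 e2 e3
    rw [eH1 (zz l)]
    have e3'' : H P (fun t => (zz l t.1.1, zz u t.1.1)) - H p (zz l) =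
      H p (fun ω => (zz l ω, zz u ω)) - H p (zz l) := e3
    have e1'' : H P (fun t => (zz l t.1.1, (zz u t.1.1, ((t.2 : ℝ), u i t.1.2)))) -
      H p (zz l) = H p (fun ω => (zz l ω, zz u ω)) - H p (zz l) +
        (Real.log A.card + (H p (fun ω => (zz l ω, u i ω)) - H p (zz l))) := e1
    have e2'' : H P (fun t => (zz l t.1.1, ((t.2 : ℝ), u i t.1.2))) -
      H p (zz l) = Real.log A.card + (H p (fun ω => (zz l ω, u i ω)) - H p (zz l)) := e2
    rw [e1'', e2'', e3'']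
  · have b1 := H_glue (f := W) (g := W) hl1 hl1 (fun _ => rfl)
      (u := fun t : (Ω × Ω) × ↥A => ((zz l t.1.1, zz u t.1.1), ((t.2 : ℝ), u i t.1.2)))
      (v := fun t : (Ω × Ω) × ↥A => (l i.castSucc t.1.1, W t))
      (Det.mk' (fun w => (w.1.2 i * w.2.1, w.1.2 2 * w.2.2)) fun _ _ => rfl)
      (Det.snd _ _ _)
    have b2 := H_glue_fst (f := W) (g := W) (q := P) hl1 (fun _ => rfl)
      (fun t : (Ω × Ω) × ↥A => ((zz l t.1.1, zz u t.1.1), ((t.2 : ℝ), u i t.1.2)))
    have b3 : H (glue P P W W) (fun t => (((zz l t.1.1.1, zz u t.1.1.1),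
        ((t.1.2 : ℝ), u i t.1.1.2)), (l i.castSucc t.2.1.1, W t.2))) ≤
        H (glue P P W W) (fun t => (((zz l t.1.1.1, zz u t.1.1.1),
        ((t.1.2 : ℝ), u i t.1.1.2)), l i.castSucc t.2.1.1)) := by
      refine H_mono hlaw2 (Det.mk' (fun w => (w.1, (w.2,
        (w.1.1.2 i * w.1.2.1, w.1.1.2 2 * w.1.2.2)))) fun t ht => ?_)
      rw [← (glue_supp ht).1]
      rfl
    show _ ≤ H (glue P P W W) (fun t => (((zz l t.1.1.1, zz u t.1.1.1),
        ((t.1.2 : ℝ), u i t.1.1.2)), l i.castSucc t.2.1.1)) -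
      H (glue P P W W) (fun t => ((zz l t.1.1.1, zz u t.1.1.1), ((t.1.2 : ℝ), u i t.1.1.2)))
    have b4 : CH P (fun t => zz l t.1.1) (fun t => (u i t.1.1 * (t.2 : ℝ),
        u 2 t.1.1 * u i t.1.2)) = H P (fun t => (zz l t.1.1, W t)) - H p (zz l) := by
      unfold CH
      rw [eH1 (zz l)]
    rw [b4] at hR
    rw [b2]
    rw [b1] at b3
    linarith

end Pool.Agent.W135.SPX.EX
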